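import Pool.Agent.H76.PS.Defs2

/-!
# Job F2: extension of the cocycles of the decomposition group
-/

set_option autoImplicit false

namespace Pool.Agent.K7.H60.PS

open Matrix IsLocalRing Filter Topology

/-! ## Nilpotent elements -/

theorem one_add_pow_sub_one_mem {R : Type*} [CommRing R] (J : Ideal R) (h2 : (2 : R) ∈ J) {x : R}
    (hx : x ∈ J) (i : ℕ) : (1 + x) ^ 2 ^ i - 1 ∈ J ^ (i + 1) := by
  induction i with
  | zero => simpa using hx
  | succ i ih =>
    have h1 : (1 + x) ^ 2 ^ (i + 1) - 1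
        = ((1 + x) ^ 2 ^ i - 1) * (2 + ((1 + x) ^ 2 ^ i - 1)) := by
      rw [pow_succ, pow_mul]; ring
    rw [h1, pow_succ]
    refine Ideal.mul_mem_mul ih (J.add_mem h2 ?_)
    have := Ideal.pow_le_pow_right (I := J) (show 1 ≤ i + 1 by omega) ih
    simpa using this

theorem one_add_pow_eq_one {S : Type*} [Ring S] {c d : ℕ} (h2 : (2 : S) ^ c = 0) {N : S}
    (hN : N ^ d = 0) : (1 + N) ^ 2 ^ (c + d) = 1 := by
  let f : Polynomial ℤ →ₐ[ℤ] S := Polynomial.aeval N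
  let I : Ideal (Polynomial ℤ) := Ideal.span {2}
  let J : Ideal (Polynomial ℤ) := Ideal.span {Polynomial.X}
  have h1 : (1 + (Polynomial.X : Polynomial ℤ)) ^ 2 ^ (c + d) - 1 ∈ (I ⊔ J) ^ (c + d + 1) :=
    one_add_pow_sub_one_mem _ (Ideal.mem_sup_left (Ideal.mem_span_singleton_self _))
      (Ideal.mem_sup_right (Ideal.mem_span_singleton_self _)) _
  have h3 : (I ⊔ J) ^ (c + d) ≤ RingHom.ker f.toRingHom := by
    refine le_trans Ideal.sup_pow_add_le_pow_sup_pow (sup_le ?_ ?_)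
    · rw [Ideal.span_singleton_pow, Ideal.span_singleton_le_iff_mem, RingHom.mem_ker]
      have h5 : f.toRingHom 2 = 2 := map_ofNat f 2
      rw [map_pow, h5, h2]
    · rw [Ideal.span_singleton_pow, Ideal.span_singleton_le_iff_mem, RingHom.mem_ker]
      simpa [f] using hN
  have h4 := h3 (Ideal.pow_le_pow_right (Nat.le_succ _) h1)
  rw [RingHom.mem_ker] at h4
  have h5 : f.toRingHom ((1 + (Polynomial.X : Polynomial ℤ)) ^ 2 ^ (c + d) - 1)
      = (1 + N) ^ 2 ^ (c + d) - 1 := by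
    simp [f]
  rw [h5] at h4
  exact sub_eq_zero.1 h4

/-! ## The affine group -/

/-- pairs of a vector and an invertible matrix -/
@[ext]
structure Aff (n : ℕ) (B : Type) [CommRing B] where
  /-- translation part -/
  v : Fin n → B
  /-- linear part -/
  g : GL (Fin n) B

namespace Aff

variable {n : ℕ} {B : Type} [CommRing B]

instance : Mul (Aff n B) := ⟨fun x y => ⟨x.v + (x.g : Matrix (Fin n) (Fin n) B) *ᵥ y.v, x.g * y.g⟩⟩
instance : One (Aff n B) := ⟨⟨0, 1⟩⟩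
instance : Inv (Aff n B) :=
  ⟨fun x => ⟨-((x.g⁻¹ : GL (Fin n) B) : Matrix (Fin n) (Fin n) B) *ᵥ x.v, x.g⁻¹⟩⟩

@[simp] theorem mul_v (x y : Aff n B) :
    (x * y).v = x.v + (x.g : Matrix (Fin n) (Fin n) B) *ᵥ y.v := rfl
@[simp] theorem mul_g (x y : Aff n B) : (x * y).g = x.g * y.g := rfl
@[simp] theorem one_v : (1 : Aff n B).v = 0 := rfl
@[simp] theorem one_g : (1 : Aff n B).g = 1 := rfl
@[simp] theorem inv_v (x : Aff n B) :
    (x⁻¹).v = -((x.g⁻¹ : GL (Fin n) B) : Matrix (Fin n) (Fin n) B) *ᵥ x.v := rfl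
@[simp] theorem inv_g (x : Aff n B) : (x⁻¹).g = x.g⁻¹ := rfl

instance : Group (Aff n B) := Group.ofLeftAxioms
  (fun x y z => by
    ext1
    · simp only [mul_v, mul_g, Matrix.mulVec_add, Matrix.mulVec_mulVec, Units.val_mul, add_assoc]
    · simp only [mul_g, mul_assoc])
  (fun x => by
    ext1
    · simp
    · simp)
  (fun x => by
    ext1
    · simp only [mul_v, inv_v, inv_g, one_v, Matrix.neg_mulVec, neg_add_cancel]
    · simp)

/-- the linear part -/
def lin : Aff n B →* GL (Fin n) B where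
  toFun := Aff.g
  map_one' := rfl
  map_mul' _ _ := rfl

@[simp] theorem lin_apply (x : Aff n B) : lin x = x.g := rfl

instance [Finite B] : Finite (Aff n B) :=
  Finite.of_injective (fun x : Aff n B => (x.v, x.g)) (by
    rintro ⟨v, g⟩ ⟨w, h⟩ e
    simp only [Prod.mk.injEq] at e
    rw [e.1, e.2])

theorem pow_of_lin {x : Aff n B} (hx : x.g = 1) (m : ℕ) : (x ^ m).v = (m : B) • x.v ∧ (x ^ m).g = 1 := by
  induction m with
  | zero => simp
  | succ m ih =>
    rw [pow_succ]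
    refine ⟨?_, by simp [ih.2, hx]⟩
    rw [mul_v, ih.1, ih.2]
    simp only [Units.val_one, Matrix.one_mulVec]
    push_cast
    rw [add_smul, one_smul]

theorem pow_eq_one {x : Aff n B} {a b : ℕ} (hx : x.g ^ 2 ^ a = 1) (hb : (2 : B) ^ b = 0) :
    x ^ 2 ^ (a + b) = 1 := by
  rw [pow_add, pow_mul]
  have h1 : (x ^ 2 ^ a).g = 1 := by
    rw [← lin_apply, map_pow, lin_apply, hx]
  obtain ⟨h2, h3⟩ := pow_of_lin h1 (2 ^ b)
  ext1
  · rw [h2]; push_cast; rw [hb]; simp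
  · rw [h3]; simp

end Aff

/-! ## Extension with finite coefficients -/

section fin

variable {G : Type} [Group G] [TopologicalSpace G] (D N : Subgroup G)

/-- homomorphisms of `D` to finite `2`-groups extend -/
def Ext : Prop :=
  ∀ (P : Type) [Group P] [Finite P], IsPGroup 2 P → ∀ r : D →* P,
      IsLocallyConstant (fun δ => r δ) →
      ∃ R : G →* P, IsLocallyConstant (fun σ => R σ) ∧ (∀ σ ∈ N, R σ = 1) ∧
        ∀ δ : D, R (δ : G) = r δ

/-- density of `D` modulo `N` -/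
def Dens : Prop :=
  ∀ U : Subgroup G, IsOpen (U : Set G) → N ≤ U → ∀ g : G, ∃ δ ∈ D, δ⁻¹ * g ∈ U

variable {D N}

theorem ext_fin (hE : Ext D N) (hD : Dens D N) (B : Type) [CommRing B] [Finite B] {b : ℕ}
    (h2 : (2 : B) ^ b = 0) {n : ℕ} (ρ : G →* GL (Fin n) B) (hρ : IsLocallyConstant (fun σ => ρ σ))
    (hN : ∀ σ ∈ N, ρ σ = 1) (hu : ∀ σ, ∃ a : ℕ, ρ σ ^ 2 ^ a = 1) (l : D → Fin n → B)
    (hl : IsLocallyConstant l) (hc : ∀ δ δ' : D, l (δ * δ') = l δ +
      (ρ (δ : G) : Matrix (Fin n) (Fin n) B) *ᵥ l δ') :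
    ∃ x : G → Fin n → B, IsLocallyConstant x ∧
      (∀ σ τ, x (σ * τ) = x σ + (ρ σ : Matrix (Fin n) (Fin n) B) *ᵥ x τ) ∧
      (∀ σ ∈ N, x σ = 0) ∧ ∀ δ : D, x δ = l δ := by
  have hl1 : l 1 = 0 := by
    have := hc 1 1
    simpa using this
  let r : D →* Aff n B :=
    { toFun := fun δ => ⟨l δ, ρ δ⟩
      map_one' := by
        ext1
        · exact hl1
        · simp
      map_mul' := fun x y => by
        ext1
        · exact hc x y
        · simp }
  have hrl : IsLocallyConstant (fun δ => r δ) := by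
    rw [IsLocallyConstant.iff_eventually_eq]
    intro δ
    have h1 := (IsLocallyConstant.iff_eventually_eq _).1 hl δ
    have h3 := (IsLocallyConstant.iff_eventually_eq _).1
      (hρ.comp_continuous (continuous_subtype_val (p := fun g => g ∈ D))) δ
    filter_upwards [h1, h3] with y hy hy'
    simp only [Function.comp] at hy'
    ext1
    · exact hy
    · exact hy'
  have hP : IsPGroup 2 r.range := by
    rintro ⟨_, δ, rfl⟩
    obtain ⟨a, ha⟩ := hu δ
    refine ⟨a + b, ?_⟩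
    ext1
    exact Aff.pow_eq_one (x := r δ) ha h2
  obtain ⟨R, h3, h4, h5⟩ := hE r.range hP r.rangeRestrict (by
    rw [IsLocallyConstant.iff_eventually_eq]
    intro δ
    filter_upwards [(IsLocallyConstant.iff_eventually_eq _).1 hrl δ] with y hy
    ext1
    exact hy)
  let R' : G →* Aff n B := r.range.subtype.comp R
  have hR' : IsLocallyConstant (fun σ => R' σ) := h3.comp Subtype.val
  have hR'N : ∀ σ ∈ N, R' σ = 1 := fun σ hσ => by
    change ((R σ : r.range) : Aff n B) = 1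
    rw [h4 σ hσ]; rfl
  have hR'D : ∀ δ : D, R' δ = r δ := fun δ => by
    change ((R δ : r.range) : Aff n B) = r δ
    rw [h5 δ]; rfl
  have key : ∀ σ, (R' σ).g = ρ σ := by
    intro σ
    let U : Subgroup G := R'.ker ⊓ ρ.ker
    have hU : IsOpen (U : Set G) := by
      have h6 : IsOpen ((fun σ => R' σ) ⁻¹' {1}) := hR' _
      have h7 : IsOpen ((fun σ => ρ σ) ⁻¹' {1}) := hρ _
      exact h6.inter h7
    obtain ⟨δ, hδ, hδ'⟩ := hD U hU (fun τ hτ => ⟨hR'N τ hτ, hN τ hτ⟩) σ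
    have h8 : σ = δ * (δ⁻¹ * σ) := by group
    have h9 : R' σ = R' δ := by
      conv_lhs => rw [h8]
      rw [map_mul, MonoidHom.mem_ker.1 hδ'.1, mul_one]
    have h10 : ρ σ = ρ δ := by
      conv_lhs => rw [h8]
      rw [map_mul, MonoidHom.mem_ker.1 hδ'.2, mul_one]
    rw [h9, h10]
    have := hR'D ⟨δ, hδ⟩
    rw [show R' δ = r ⟨δ, hδ⟩ from this]
    rfl
  refine ⟨fun σ => (R' σ).v, hR'.comp Aff.v, ?_, ?_, ?_⟩
  · intro σ τ
    simp only [map_mul, Aff.mul_v, key]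
  · intro σ hσ
    simp only [hR'N σ hσ, Aff.one_v]
  · intro δ
    simp only [hR'D δ]
    rfl

end fin

/-! ## The adic limit -/

section adic

variable {G : Type} [Group G] [TopologicalSpace G] {D N : Subgroup G}
  {A : Type} [CommRing A] {n : ℕ}

/-- `x` is a cocycle modulo `I` which extends `l` -/
structure Cm (D N : Subgroup G) (I : Ideal A) (ρ : G →* GL (Fin n) A) (l : D → Fin n → A)
    (x : G → Fin n → A) : Prop where
  lc : ∀ σ, ∀ᶠ τ in 𝓝 σ, ∀ i, x τ i - x σ i ∈ I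
  cc : ∀ σ τ i, x (σ * τ) i - x σ i - ((ρ σ : Matrix (Fin n) (Fin n) A) *ᵥ x τ) i ∈ I
  tr : ∀ σ ∈ N, ∀ i, x σ i ∈ I
  ex : ∀ (δ : D) (i), x δ i - l δ i ∈ I

theorem Cm.mono {I J : Ideal A} (h : I ≤ J) {ρ : G →* GL (Fin n) A} {l : D → Fin n → A}
    {x : G → Fin n → A} (hx : Cm D N I ρ l x) : Cm D N J ρ l x where
  lc σ := (hx.lc σ).mono fun _ hτ i => h (hτ i)
  cc σ τ i := h (hx.cc σ τ i)
  tr σ hσ i := h (hx.tr σ hσ i)
  ex δ i := h (hx.ex δ i)

theorem mulVec_mem {I : Ideal A} (M : Matrix (Fin n) (Fin n) A) {v : Fin n → A}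
    (hv : ∀ i, v i ∈ I) (i : Fin n) : (M *ᵥ v) i ∈ I := by
  rw [Matrix.mulVec, dotProduct]
  exact I.sum_mem fun j _ => I.mul_mem_left _ (hv j)

theorem Cm.uniq (hD : Dens D N) {I : Ideal A} {ρ : G →* GL (Fin n) A} {l : D → Fin n → A}
    {x x' : G → Fin n → A} (hx : Cm D N I ρ l x) (hx' : Cm D N I ρ l x') (σ : G) (i : Fin n) :
    x σ i - x' σ i ∈ I := by
  have hone : ∀ {y : G → Fin n → A}, Cm D N I ρ l y → ∀ i, y 1 i ∈ I := fun hy i =>
    hy.tr 1 N.one_mem i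
  have hmul : ∀ {y : G → Fin n → A}, Cm D N I ρ l y → ∀ σ τ, (∀ i, y τ i ∈ I) →
      ∀ i, y (σ * τ) i - y σ i ∈ I := by
    intro y hy σ τ hτ i
    have h1 := I.add_mem (hy.cc σ τ i) (mulVec_mem (ρ σ : Matrix (Fin n) (Fin n) A) hτ i)
    simpa using h1
  have hmul' : ∀ {y : G → Fin n → A}, Cm D N I ρ l y → ∀ σ τ, (∀ i, y σ i ∈ I) →
      (∀ i, y τ i ∈ I) → ∀ i, y (σ * τ) i ∈ I := by
    intro y hy σ τ hσ hτ i
    have h1 := I.add_mem (hmul hy σ τ hτ i) (hσ i)
    simpa using h1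
  have hinv : ∀ {y : G → Fin n → A}, Cm D N I ρ l y → ∀ σ, (∀ i, y σ i ∈ I) →
      ∀ i, y σ⁻¹ i ∈ I := by
    intro y hy σ hσ i
    have h1 := hmul hy σ⁻¹ σ hσ i
    rw [inv_mul_cancel] at h1
    have h2 := I.sub_mem (hone hy i) h1
    simpa using h2
  have hop : ∀ {y : G → Fin n → A}, Cm D N I ρ l y → IsOpen {σ | ∀ i, y σ i ∈ I} := by
    intro y hy
    rw [isOpen_iff_mem_nhds]
    intro σ hσ
    filter_upwards [hy.lc σ] with τ hτ i
    have h1 := I.add_mem (hτ i) (hσ i)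
    simpa using h1
  let U : Subgroup G :=
    { carrier := {σ | (∀ i, x σ i ∈ I)} ∩ {σ | ∀ i, x' σ i ∈ I}
      mul_mem' := fun {a b} ha hb => ⟨hmul' hx a b ha.1 hb.1, hmul' hx' a b ha.2 hb.2⟩
      one_mem' := ⟨hone hx, hone hx'⟩
      inv_mem' := fun {a} ha => ⟨hinv hx a ha.1, hinv hx' a ha.2⟩ }
  have hU : IsOpen (U : Set G) := (hop hx).inter (hop hx')
  obtain ⟨δ, hδ, hδ'⟩ := hD U hU (fun τ hτ => ⟨hx.tr τ hτ, hx'.tr τ hτ⟩) σ
  have h1 := hmul hx δ (δ⁻¹ * σ) hδ'.1 i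
  have h2 := hmul hx' δ (δ⁻¹ * σ) hδ'.2 i
  rw [mul_inv_cancel_left] at h1 h2
  have h3 := hx.ex ⟨δ, hδ⟩ i
  have h4 := hx'.ex ⟨δ, hδ⟩ i
  have h5 := I.sub_mem (I.add_mem h1 h3) (I.add_mem h2 h4)
  convert h5 using 1
  ring

/-- reduction of an invertible matrix -/
noncomputable def red (I : Ideal A) : GL (Fin n) A →* GL (Fin n) (A ⧸ I) :=
  Matrix.GeneralLinearGroup.map (Ideal.Quotient.mk I)

theorem red_val (I : Ideal A) (g : GL (Fin n) A) :
    ((red I g : GL (Fin n) (A ⧸ I)) : Matrix (Fin n) (Fin n) (A ⧸ I))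
      = (g : Matrix (Fin n) (Fin n) A).map (Ideal.Quotient.mk I) := rfl

theorem exists_Cm (hE : Ext D N) (hD : Dens D N) (I : Ideal A) [Finite (A ⧸ I)] {b : ℕ}
    (h2 : (2 : A) ^ b ∈ I) (ρ : G →* GL (Fin n) A)
    (hρ : ∀ σ, ∀ᶠ τ in 𝓝 σ, ∀ i j, (ρ τ : Matrix (Fin n) (Fin n) A) i j -
      (ρ σ : Matrix (Fin n) (Fin n) A) i j ∈ I)
    (hN : ∀ σ ∈ N, red I (ρ σ) = 1) (hu : ∀ σ, ∃ a : ℕ, red I (ρ σ) ^ 2 ^ a = 1)
    (l : D → Fin n → A) (hl : ∀ δ, ∀ᶠ δ' in 𝓝 δ, ∀ i, l δ' i - l δ i ∈ I)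
    (hc : ∀ δ δ' : D, l (δ * δ') = l δ + (ρ (δ : G) : Matrix (Fin n) (Fin n) A) *ᵥ l δ') :
    ∃ x, Cm D N I ρ l x := by
  have h2' : (2 : A ⧸ I) ^ b = 0 := by
    have := Ideal.Quotient.eq_zero_iff_mem.2 h2
    rw [map_pow, map_ofNat] at this
    exact this
  have hmv : ∀ (M : Matrix (Fin n) (Fin n) A) (v : Fin n → A) (i),
      (M.map (Ideal.Quotient.mk I) *ᵥ (fun j => Ideal.Quotient.mk I (v j))) i
        = Ideal.Quotient.mk I ((M *ᵥ v) i) := by
    intro M v i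
    exact (RingHom.map_mulVec (Ideal.Quotient.mk I) M v i).symm
  obtain ⟨x, hx1, hx2, hx3, hx4⟩ := ext_fin hE hD (A ⧸ I) h2' ((red I).comp ρ)
    (by
      rw [IsLocallyConstant.iff_eventually_eq]
      intro σ
      filter_upwards [hρ σ] with τ hτ
      apply Units.ext
      ext i j
      exact (Ideal.Quotient.mk_eq_mk_iff_sub_mem _ _).2 (hτ i j))
    hN hu (fun δ i => Ideal.Quotient.mk I (l δ i))
    (by
      rw [IsLocallyConstant.iff_eventually_eq]
      intro σ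
      filter_upwards [hl σ] with τ hτ
      funext i
      exact (Ideal.Quotient.mk_eq_mk_iff_sub_mem _ _).2 (hτ i))
    (by
      intro δ δ'
      funext i
      rw [Pi.add_apply]
      change _ = _ + ((ρ (δ : G) : Matrix (Fin n) (Fin n) A).map (Ideal.Quotient.mk I) *ᵥ
        (fun j => Ideal.Quotient.mk I (l δ' j))) i
      rw [hmv, hc, Pi.add_apply, map_add])
  have hsur := Ideal.Quotient.mk_surjective (I := I)
  choose q hq using hsur
  refine ⟨fun σ i => q (x σ i), ?_, ?_, ?_, ?_⟩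
  · intro σ
    filter_upwards [(IsLocallyConstant.iff_eventually_eq _).1 hx1 σ] with τ hτ i
    rw [← Ideal.Quotient.mk_eq_mk_iff_sub_mem, hq, hq, hτ]
  · intro σ τ i
    rw [← Ideal.Quotient.eq_zero_iff_mem, map_sub, map_sub, hq, hq, ← hmv]
    simp only [hq]
    have := congrFun (hx2 σ τ) i
    rw [this, Pi.add_apply]
    change x σ i + ((ρ σ : Matrix (Fin n) (Fin n) A).map (Ideal.Quotient.mk I) *ᵥ x τ) i - x σ i -
      ((ρ σ : Matrix (Fin n) (Fin n) A).map (Ideal.Quotient.mk I) *ᵥ x τ) i = 0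
    ring
  · intro σ hσ i
    rw [← Ideal.Quotient.eq_zero_iff_mem, hq, hx3 σ hσ]
    rfl
  · intro δ i
    rw [← Ideal.Quotient.mk_eq_mk_iff_sub_mem, hq, hx4 δ]

theorem exists_limit (hD : Dens D N) (m : Ideal A) [IsAdicComplete m A] (ρ : G →* GL (Fin n) A)
    (l : D → Fin n → A) (h : ∀ k : ℕ, ∃ x, Cm D N (m ^ k) ρ l x) :
    ∃ x : G → Fin n → A, ∀ k : ℕ, Cm D N (m ^ k) ρ l x := by
  choose X hX using h
  have h1 : ∀ σ i, ∃ L : A, ∀ k, X k σ i - L ∈ m ^ k := by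
    intro σ i
    obtain ⟨L, hL⟩ := IsPrecomplete.prec (I := m) (M := A) inferInstance
      (f := fun k => X k σ i) (by
        intro k k' hk
        rw [SModEq.sub_mem, smul_eq_mul, Ideal.mul_top]
        exact (hX k).uniq hD ((hX k').mono (Ideal.pow_le_pow_right hk)) σ i)
    refine ⟨L, fun k => ?_⟩
    have := hL k
    rwa [SModEq.sub_mem, smul_eq_mul, Ideal.mul_top] at this
  choose L hL using h1
  refine ⟨L, fun k => ⟨?_, ?_, ?_, ?_⟩⟩
  · intro σ
    filter_upwards [(hX k).lc σ] with τ hτ i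
    have h2 := (m ^ k).sub_mem (hτ i) ((m ^ k).sub_mem (hL τ i k) (hL σ i k))
    convert h2 using 1
    ring
  · intro σ τ i
    have h2 := mulVec_mem (I := m ^ k) (ρ σ : Matrix (Fin n) (Fin n) A)
      (v := fun j => X k τ j - L τ j) (fun j => hL τ j k) i
    have h3 : ((ρ σ : Matrix (Fin n) (Fin n) A) *ᵥ fun j => X k τ j - L τ j) i
        = ((ρ σ : Matrix (Fin n) (Fin n) A) *ᵥ X k τ) i
          - ((ρ σ : Matrix (Fin n) (Fin n) A) *ᵥ L τ) i := by
      have : (fun j => X k τ j - L τ j) = X k τ - L τ := rfl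
      rw [this, Matrix.mulVec_sub]
      rfl
    rw [h3] at h2
    have h4 := (m ^ k).add_mem ((m ^ k).sub_mem ((hX k).cc σ τ i)
      ((m ^ k).sub_mem (hL (σ * τ) i k) (hL σ i k))) h2
    convert h4 using 1
    ring
  · intro σ hσ i
    have h2 := (m ^ k).sub_mem ((hX k).tr σ hσ i) (hL σ i k)
    convert h2 using 1
    ring
  · intro δ i
    have h2 := (m ^ k).sub_mem ((hX k).ex δ i) (hL δ i k)
    convert h2 using 1
    ring

theorem eq_zero_of_forall_mem (m : Ideal A) [IsAdicComplete m A] {a : A} (h : ∀ k : ℕ, a ∈ m ^ k) :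
    a = 0 := by
  refine IsHausdorff.haus (I := m) (M := A) inferInstance a fun k => ?_
  rw [SModEq.zero, smul_eq_mul, Ideal.mul_top]
  exact h k

theorem eventually_mem [TopologicalSpace A] [IsTopologicalRing A] {m : Ideal A} (hm : IsAdic m)
    {X : Type} [TopologicalSpace X] {f : X → A} (hf : Continuous f) (k : ℕ) (x : X) :
    ∀ᶠ y in 𝓝 x, f y - f x ∈ m ^ k := by
  have h1 : Tendsto (fun y => f y - f x) (𝓝 x) (𝓝 0) := by
    have := (hf.tendsto x).sub_const (f x)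
    simpa using this
  have h2 : ((m ^ k : Ideal A) : Set A) ∈ 𝓝 (0 : A) := by
    have := (isAdic_iff.1 hm).1 k
    exact this.mem_nhds (Ideal.zero_mem _)
  exact h1 h2

theorem continuous_of_eventually [TopologicalSpace A] [IsTopologicalRing A] {m : Ideal A}
    (hm : IsAdic m) {X : Type} [TopologicalSpace X] {f : X → A}
    (hf : ∀ (k : ℕ) (x : X), ∀ᶠ y in 𝓝 x, f y - f x ∈ m ^ k) : Continuous f := by
  rw [continuous_iff_continuousAt]
  intro x
  have h1 : Tendsto (fun y => f y - f x) (𝓝 x) (𝓝 0) := by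
    intro s hs
    obtain ⟨k, hk⟩ := (isAdic_iff.1 hm).2 s hs
    exact (hf k x).mono fun y hy => hk hy
  have h2 := h1.add_const (f x)
  simpa [ContinuousAt] using h2

/-- The abstract statement. -/
theorem extend (hE : Ext D N) (hD : Dens D N) [IsLocalRing A] [IsNoetherianRing A]
    [TopologicalSpace A] [IsTopologicalRing A] (hA : IsAdic (maximalIdeal A))
    (hc : IsAdicComplete (maximalIdeal A) A) (hF : Finite (ResidueField A))
    (h2 : (2 : A) ∈ maximalIdeal A) (ρ : G →* GL (Fin n) A)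
    (hρ : ∀ i j, Continuous fun σ => (ρ σ : Matrix (Fin n) (Fin n) A) i j)
    (hN : ∀ k : ℕ, ∀ σ ∈ N, red (maximalIdeal A ^ k) (ρ σ) = 1)
    (hu : ∀ k : ℕ, ∀ σ, ∃ a : ℕ, red (maximalIdeal A ^ k) (ρ σ) ^ 2 ^ a = 1)
    (l : D → Fin n → A) (hl : Continuous l)
    (hcc : ∀ δ δ' : D, l (δ * δ') = l δ + (ρ (δ : G) : Matrix (Fin n) (Fin n) A) *ᵥ l δ') :
    ∃ x : G → Fin n → A, Continuous x ∧
      (∀ σ τ, x (σ * τ) = x σ + (ρ σ : Matrix (Fin n) (Fin n) A) *ᵥ x τ) ∧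
      (∀ σ ∈ N, x σ = 0) ∧ ∀ δ : D, x δ = l δ := by
  have hfin : ∀ k : ℕ, Finite (A ⧸ maximalIdeal A ^ k) := by
    intro k
    have : Finite (A ⧸ maximalIdeal A) := hF
    exact Ideal.finite_quotient_pow (IsNoetherian.noetherian (maximalIdeal A)) k
  obtain ⟨x, hx⟩ := exists_limit hD (maximalIdeal A) ρ l (fun k => by
    have := hfin k
    refine exists_Cm hE hD (maximalIdeal A ^ k) (b := k) (Ideal.pow_mem_pow h2 k) ρ ?_ (hN k)
      (hu k) l ?_ hcc
    · intro σ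
      rw [eventually_all]
      intro i
      rw [eventually_all]
      intro j
      exact eventually_mem hA (hρ i j) k σ
    · intro δ
      rw [eventually_all]
      intro i
      exact eventually_mem hA ((continuous_apply i).comp hl) k δ)
  refine ⟨x, ?_, ?_, ?_, ?_⟩
  · refine continuous_pi fun i => continuous_of_eventually hA fun k σ => ?_
    exact ((hx k).lc σ).mono fun τ hτ => hτ i
  · intro σ τ
    funext i
    have := eq_zero_of_forall_mem (maximalIdeal A) fun k => (hx k).cc σ τ i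
    rw [Pi.add_apply]
    linear_combination this
  · intro σ hσ
    funext i
    exact eq_zero_of_forall_mem (maximalIdeal A) fun k => (hx k).tr σ hσ i
  · intro δ
    funext i
    exact sub_eq_zero.1 (eq_zero_of_forall_mem (maximalIdeal A) fun k => (hx k).ex δ i)

/-- Residually unipotent matrices have `2`-power order modulo the powers of the maximal ideal. -/
theorem red_pow_eq_one [IsLocalRing A] (h2 : (2 : A) ∈ maximalIdeal A) (k : ℕ) (g : GL (Fin n) A)
    (hg : ∃ m : ℕ, ∀ i j, (((g : Matrix (Fin n) (Fin n) A) - 1) ^ m) i j ∈ maximalIdeal A) :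
    ∃ a : ℕ, red (maximalIdeal A ^ k) g ^ 2 ^ a = 1 := by
  obtain ⟨m, hm⟩ := hg
  set q : Matrix (Fin n) (Fin n) A →+* Matrix (Fin n) (Fin n) (A ⧸ maximalIdeal A ^ k) :=
    (Ideal.Quotient.mk (maximalIdeal A ^ k)).mapMatrix with hq
  have hker : ∀ (j : ℕ) (M : Matrix (Fin n) (Fin n) A), (∀ i i', M i i' ∈ maximalIdeal A) →
      ∀ i i', (M ^ j) i i' ∈ maximalIdeal A ^ j := by
    intro j M hM
    induction j with
    | zero => intro i i'; simp
    | succ j ih =>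
      intro i i'
      rw [pow_succ, pow_succ, Matrix.mul_apply]
      exact Ideal.sum_mem _ fun t _ => Ideal.mul_mem_mul (ih i t) (hM t i')
  have hN : (q ((g : Matrix (Fin n) (Fin n) A) - 1)) ^ (m * k) = 0 := by
    rw [pow_mul, ← map_pow, ← map_pow]
    ext i j
    exact Ideal.Quotient.eq_zero_iff_mem.2 (hker k _ hm i j)
  have h3 : (2 : Matrix (Fin n) (Fin n) (A ⧸ maximalIdeal A ^ k)) ^ k = 0 := by
    have h4 : (2 : A ⧸ maximalIdeal A ^ k) ^ k = 0 := by
      have := Ideal.Quotient.eq_zero_iff_mem.2 (Ideal.pow_mem_pow h2 k)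
      rw [map_pow, map_ofNat] at this
      exact this
    have h5 : (2 : Matrix (Fin n) (Fin n) (A ⧸ maximalIdeal A ^ k))
        = Matrix.scalar (Fin n) (2 : A ⧸ maximalIdeal A ^ k) := (map_ofNat _ 2).symm
    rw [h5, ← map_pow, h4, map_zero]
  refine ⟨k + m * k, ?_⟩
  apply Units.ext
  have h6 := one_add_pow_eq_one h3 hN
  rw [map_sub, map_one, add_sub_cancel] at h6
  rw [Units.val_pow_eq_pow_val, red_val, Units.val_one]
  exact h6

end adic

/-! ## The Galois side -/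

section gal

open Pool.Agent.Y715.Gi (QB KK GK)
open Pool.Agent.Y715.Nr Pool.Agent.W237.RK
open Pool.Agent.Z384 (II DD DDs Fld)
open Pool.Agent.H76.PS

theorem mem_Nf_of_mem_II {s : QB} (p : ℕ) [Fact p.Prime] (ι : QB →ₐ[ℚ] PadicAlgCl p) (hp : p ≠ 2)
    {σ : GK s} (hσ : σ ∈ (II ι : Set (GK s))) : σ ∈ Nf s := by
  rw [Nf, Subgroup.mem_sInf]
  intro N hN
  exact hN.unramified p ι hp σ hσ

theorem TE_ker {s : QB} {A : Type} [CommRing A] [IsLocalRing A] [IsNoetherianRing A]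
    [TopologicalSpace A] [IsTopologicalRing A] (hA : IsAdic (maximalIdeal A))
    (hF : Finite (ResidueField A)) (h2 : (2 : A) ∈ maximalIdeal A) {n : ℕ}
    (ρ : GK s →* GL (Fin n) A) (hρ : Rp ρ) (k : ℕ) :
    TE ((red (maximalIdeal A ^ k)).comp ρ).ker := by
  have hfin : Finite (A ⧸ maximalIdeal A ^ k) := by
    have : Finite (A ⧸ maximalIdeal A) := hF
    exact Ideal.finite_quotient_pow (IsNoetherian.noetherian (maximalIdeal A)) k
  have hlc : IsLocallyConstant (fun σ => ((red (maximalIdeal A ^ k)).comp ρ) σ) := by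
    rw [IsLocallyConstant.iff_eventually_eq]
    intro σ
    have h3 : ∀ᶠ τ in 𝓝 σ, ∀ i j, (ρ τ : Matrix (Fin n) (Fin n) A) i j -
        (ρ σ : Matrix (Fin n) (Fin n) A) i j ∈ maximalIdeal A ^ k := by
      rw [eventually_all]
      intro i
      rw [eventually_all]
      intro j
      exact eventually_mem hA (hρ.cont i j) k σ
    filter_upwards [h3] with τ hτ
    apply Units.ext
    ext i j
    exact (Ideal.Quotient.mk_eq_mk_iff_sub_mem _ _).2 (hτ i j)
  refine ⟨?_, inferInstance, ?_, ?_⟩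
  · exact hlc {1}
  · rw [Subgroup.index_ker]
    have hP : IsPGroup 2 ((red (maximalIdeal A ^ k)).comp ρ).range := by
      rintro ⟨_, σ, rfl⟩
      obtain ⟨a, ha⟩ := red_pow_eq_one h2 k (ρ σ) (hρ.unipotent σ)
      refine ⟨a, ?_⟩
      ext1
      exact ha
    have : Finite (GL (Fin n) (A ⧸ maximalIdeal A ^ k)) := inferInstance
    have : Fact (Nat.Prime 2) := ⟨Nat.prime_two⟩
    exact IsPGroup.iff_card.1 hP
  · intro p _ ι hp σ hσ
    rw [MonoidHom.mem_ker, MonoidHom.comp_apply, hρ.unramified p ι hp σ hσ, map_one]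

/-- Job F2. -/
theorem stF2 (h0 : StE0) (h1 : StF1) : StF2 := by
  intro s d hs hd ι₀ A _ _ _ _ _ hA hc hF h2 n ρ hρ l hl hcc
  have hE : Ext (DDs (s := s) ι₀) (Nf s) := fun P _ _ hP r hr => h1 s d hs hd ι₀ P hP r hr
  have hD : Dens (DDs (s := s) ι₀) (Nf s) := (h0 s d hs hd).2.2.2.2 ι₀
  obtain ⟨x, hx1, hx2, hx3, hx4⟩ := extend hE hD hA hc hF h2 ρ hρ.cont
    (fun k σ hσ => by
      have h3 : Nf s ≤ ((red (maximalIdeal A ^ k)).comp ρ).ker := sInf_le (TE_ker hA hF h2 ρ hρ k)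
      exact h3 hσ)
    (fun k σ => red_pow_eq_one h2 k (ρ σ) (hρ.unipotent σ)) l hl hcc
  exact ⟨x, hx1, hx2, fun p _ ι hp σ hσ => hx3 σ (mem_Nf_of_mem_II p ι hp hσ), hx4⟩

end gal

end Pool.Agent.K7.H60.PS
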